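import Mathlib

/-
Polynomial approximation of the exponential on the unit interval.
-/

namespace Pool.Agent.MP_66cee2_co.H12

open Polynomial Finset Filter Topology

theorem cos_pow (j : ℕ) (φ : ℝ) : Real.cos φ ^ j =
    ∑ m ∈ range (j + 1), (j.choose m : ℝ) / 2 ^ j * Real.cos (((2 * (m : ℤ) - j : ℤ) : ℝ) * φ) := by
  have h1 : ((2 * Real.cos φ : ℝ) : ℂ) =
      Complex.exp (φ * Complex.I) + Complex.exp (-φ * Complex.I) := by
    push_cast
    exact Complex.two_cos _
  have h2 : (((2 * Real.cos φ) ^ j : ℝ) : ℂ) = ∑ m ∈ range (j + 1),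
      ((j.choose m : ℝ) : ℂ) *
        Complex.exp (((((2 * (m : ℤ) - j : ℤ) : ℝ) * φ : ℝ) : ℂ) * Complex.I) := by
    rw [Complex.ofReal_pow, h1, add_pow]
    refine sum_congr rfl fun m hm => ?_
    have hm' : m ≤ j := Nat.lt_succ_iff.1 (mem_range.1 hm)
    rw [← Complex.exp_nat_mul, ← Complex.exp_nat_mul, ← Complex.exp_add, mul_comm]
    congr 2
    push_cast [Nat.cast_sub hm']
    ring
  have h3 := congrArg Complex.re h2
  rw [Complex.ofReal_re, Complex.re_sum] at h3
  simp only [Complex.re_ofReal_mul, Complex.exp_ofReal_mul_I_re] at h3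
  have h4 : (2 : ℝ) ^ j ≠ 0 := by positivity
  calc Real.cos φ ^ j = (2 * Real.cos φ) ^ j / 2 ^ j := by rw [mul_pow]; field_simp
    _ = _ := by
      rw [h3, sum_div]
      exact sum_congr rfl fun m _ => by ring

theorem pow_apx (l j : ℕ) (x : ℝ) (hx : 1 ≤ x) : ∃ p : ℝ[X], p.natDegree ≤ l ∧
    ∀ y : ℝ, -1 ≤ y → y ≤ 1 → |y ^ j - p.eval y| ≤ 2 * (x ^ l)⁻¹ * ((x + x⁻¹) / 2) ^ j := by
  classical
  have x0 : 0 < x := by linarith
  refine ⟨∑ m ∈ (range (j + 1)).filter fun m : ℕ => (2 * (m : ℤ) - j).natAbs ≤ l,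
    C ((j.choose m : ℝ) / 2 ^ j) * Chebyshev.T ℝ (2 * (m : ℤ) - j), ?_, fun y h1 h2 => ?_⟩
  · refine natDegree_sum_le_of_forall_le _ _ fun m hm => (natDegree_C_mul_le _ _).trans ?_
    rw [Chebyshev.natDegree_T]
    exact (mem_filter.1 hm).2
  · rw [← Real.cos_arccos h1 h2, cos_pow, eval_finsetSum]
    simp only [eval_mul, eval_C, Chebyshev.T_real_cos]
    rw [sum_filter, ← sum_sub_distrib]
    refine (abs_sum_le_sum_abs _ _).trans ?_
    have key : ∀ m ∈ range (j + 1),
        |(j.choose m : ℝ) / 2 ^ j * Real.cos (((2 * (m : ℤ) - j : ℤ) : ℝ) * Real.arccos y) -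
          if (2 * (m : ℤ) - j).natAbs ≤ l then
            (j.choose m : ℝ) / 2 ^ j * Real.cos (((2 * (m : ℤ) - j : ℤ) : ℝ) * Real.arccos y)
          else 0| ≤ (x ^ l)⁻¹ / 2 ^ j * (x ^ m * x⁻¹ ^ (j - m) * j.choose m) +
            (x ^ l)⁻¹ / 2 ^ j * (x⁻¹ ^ m * x ^ (j - m) * j.choose m) := by
      intro m hm
      have hm' : m ≤ j := Nat.lt_succ_iff.1 (mem_range.1 hm)
      split_ifs with h
      · rw [sub_self, abs_zero]
        positivity
      · have hc : (0 : ℝ) ≤ (j.choose m : ℝ) / 2 ^ j := by positivity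
        have a1 : 0 ≤ (x ^ l)⁻¹ * (x ^ m * x⁻¹ ^ (j - m)) := by positivity
        have a2 : 0 ≤ (x ^ l)⁻¹ * (x⁻¹ ^ m * x ^ (j - m)) := by positivity
        have one : 1 ≤ (x ^ l)⁻¹ * (x ^ m * x⁻¹ ^ (j - m)) +
            (x ^ l)⁻¹ * (x⁻¹ ^ m * x ^ (j - m)) := by
          rcases le_or_gt (l + (j - m)) m with h3 | h3
          · have : x ^ (l + (j - m)) ≤ x ^ m := pow_le_pow_right₀ hx h3
            have e : (x ^ l)⁻¹ * (x ^ m * x⁻¹ ^ (j - m)) = x ^ m / x ^ (l + (j - m)) := by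
              rw [pow_add, inv_pow]; field_simp
            have := (one_le_div (pow_pos x0 _)).2 this
            linarith
          · have h4 : l + m ≤ j - m := by omega
            have : x ^ (l + m) ≤ x ^ (j - m) := pow_le_pow_right₀ hx h4
            have e : (x ^ l)⁻¹ * (x⁻¹ ^ m * x ^ (j - m)) = x ^ (j - m) / x ^ (l + m) := by
              rw [pow_add, inv_pow]; field_simp
            have := (one_le_div (pow_pos x0 _)).2 this
            linarith
        rw [sub_zero, abs_mul, abs_of_nonneg hc]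
        calc _ ≤ (j.choose m : ℝ) / 2 ^ j * 1 :=
              mul_le_mul_of_nonneg_left (Real.abs_cos_le_one _) hc
          _ ≤ (j.choose m : ℝ) / 2 ^ j * ((x ^ l)⁻¹ * (x ^ m * x⁻¹ ^ (j - m)) +
              (x ^ l)⁻¹ * (x⁻¹ ^ m * x ^ (j - m))) := mul_le_mul_of_nonneg_left one hc
          _ = _ := by ring
    refine (sum_le_sum key).trans (le_of_eq ?_)
    rw [sum_add_distrib, ← mul_sum, ← mul_sum, ← add_pow, ← add_pow, add_comm x⁻¹ x, div_pow]
    ring

theorem exp_tail (z ε : ℝ) (hz : 0 ≤ z) (hε : 0 < ε) : ∃ J : ℕ, ∀ t : ℝ, |t| ≤ z →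
    |Real.exp t - ∑ j ∈ range J, t ^ j / j.factorial| ≤ ε := by
  have h1 : ∀ᶠ J : ℕ in atTop, z ^ J / J.factorial < ε / 2 :=
    (Real.summable_pow_div_factorial z).tendsto_atTop_zero.eventually
      (gt_mem_nhds (half_pos hε))
  have h2 : ∀ᶠ J : ℕ in atTop, 2 * z ≤ J := tendsto_natCast_atTop_atTop.eventually_ge_atTop _
  obtain ⟨J, a, b⟩ := (h1.and h2).exists
  refine ⟨J, fun t ht => ?_⟩
  have n1 : ‖(t : ℂ)‖ = |t| := by rw [Complex.norm_real, Real.norm_eq_abs]
  have h3 := Complex.exp_bound' (x := (t : ℂ)) (n := J) (by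
    rw [n1, div_le_iff₀ (by positivity)]
    push_cast
    linarith)
  have e : Complex.exp (t : ℂ) - ∑ m ∈ range J, (t : ℂ) ^ m / (m.factorial : ℂ) =
      ((Real.exp t - ∑ j ∈ range J, t ^ j / j.factorial : ℝ) : ℂ) := by
    push_cast
    rfl
  rw [e, Complex.norm_real, Real.norm_eq_abs, n1] at h3
  have h4 : |t| ^ J / J.factorial ≤ z ^ J / J.factorial := by gcongr
  linarith

theorem approxExp (l : ℕ) (a x : ℝ) (ha : 0 ≤ a) (hx : 1 ≤ x) : ∃ r : ℝ[X], r.natDegree ≤ l ∧
    ∀ v : ℝ, 0 ≤ v → v ≤ 1 → |Real.exp (-(a * v)) - r.eval v| ≤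
      3 * (x ^ l)⁻¹ * Real.exp (a / 2 * ((x + x⁻¹) / 2 - 1)) := by
  have x0 : 0 < x := by linarith
  choose p hp hq using fun j => pow_apx l j x hx
  set z := a / 2 with hz
  set κ := (x + x⁻¹) / 2 with hκ
  have z0 : 0 ≤ z := by positivity
  have κ0 : 0 ≤ κ := by positivity
  obtain ⟨J, hJ⟩ := exp_tail z ((x ^ l)⁻¹ * Real.exp (z * κ)) z0 (by positivity)
  refine ⟨C (Real.exp (-z)) *
    (∑ j ∈ range J, C ((-z) ^ j / j.factorial) * p j).comp (C 2 * X + C (-1)), ?_,
    fun v h0 h1 => ?_⟩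
  · refine (natDegree_C_mul_le _ _).trans (natDegree_comp_le.trans ?_)
    have d1 : (∑ j ∈ range J, C ((-z) ^ j / j.factorial) * p j).natDegree ≤ l :=
      natDegree_sum_le_of_forall_le _ _ fun j _ => (natDegree_C_mul_le _ _).trans (hp j)
    exact (Nat.mul_le_mul d1 natDegree_linear_le).trans (by omega)
  · set y := 2 * v + -1 with hy
    have y1 : -1 ≤ y := by linarith
    have y2 : y ≤ 1 := by linarith
    have e1 : Real.exp (-(a * v)) = Real.exp (-z) * Real.exp (-z * y) := by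
      rw [← Real.exp_add]
      congr 1
      rw [hy, hz]
      ring
    have e2 : Real.exp (z * (κ - 1)) = Real.exp (-z) * Real.exp (z * κ) := by
      rw [← Real.exp_add]
      congr 1
      ring
    simp only [eval_mul, eval_C, eval_comp, eval_add, eval_X, eval_finsetSum]
    rw [← hy, e1, e2, ← mul_sub, abs_mul, abs_of_pos (Real.exp_pos _)]
    have t1 := hJ (-z * y) (by
      rw [abs_mul, abs_neg, abs_of_nonneg z0]
      exact mul_le_of_le_one_right z0 (abs_le.2 ⟨y1, y2⟩))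
    have t2 : |∑ j ∈ range J, (-z * y) ^ j / j.factorial -
        ∑ j ∈ range J, (-z) ^ j / j.factorial * (p j).eval y| ≤
        2 * (x ^ l)⁻¹ * Real.exp (z * κ) := by
      rw [← sum_sub_distrib]
      refine (abs_sum_le_sum_abs _ _).trans ?_
      have k : ∀ j ∈ range J, |(-z * y) ^ j / j.factorial -
          (-z) ^ j / j.factorial * (p j).eval y| ≤ 2 * (x ^ l)⁻¹ * ((z * κ) ^ j / j.factorial) := by
        intro j _
        have e : (-z * y) ^ j / j.factorial - (-z) ^ j / j.factorial * (p j).eval y =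
            (-z) ^ j / j.factorial * (y ^ j - (p j).eval y) := by
          rw [mul_pow]; ring
        rw [e, abs_mul, abs_div, abs_pow, abs_neg, abs_of_nonneg z0, Nat.abs_cast]
        refine (mul_le_mul_of_nonneg_left (hq j y y1 y2) (by positivity)).trans (le_of_eq ?_)
        rw [mul_pow]; ring
      refine (sum_le_sum k).trans ?_
      rw [← mul_sum]
      exact mul_le_mul_of_nonneg_left (Real.sum_le_exp_of_nonneg (by positivity) J) (by positivity)
    have t3 := abs_sub_le (Real.exp (-z * y)) (∑ j ∈ range J, (-z * y) ^ j / j.factorial)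
      (∑ j ∈ range J, (-z) ^ j / j.factorial * (p j).eval y)
    calc _ ≤ Real.exp (-z) * (3 * (x ^ l)⁻¹ * Real.exp (z * κ)) :=
          mul_le_mul_of_nonneg_left (by linarith) (Real.exp_pos _).le
      _ = _ := by ring

end Pool.Agent.MP_66cee2_co.H12
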