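import Pool.Agent.MP_66cee2_co.H12.Apx

/-
Approximation of a Gaussian by cosine transforms of even polynomials on the interval.
-/

namespace Pool.Agent.MP_66cee2_co.H12

open Polynomial Filter Topology MeasureTheory Set

theorem int_cos_gauss (a k : ℝ) (ha : 0 < a) :
    Integrable fun u : ℝ => Real.cos (k * u) * Real.exp (-(a * u ^ 2)) := by
  have h : Integrable fun u : ℝ => Real.exp (-(a * u ^ 2)) := by
    simpa only [neg_mul] using integrable_exp_neg_mul_sq ha
  refine h.mono' (by fun_prop) (ae_of_all _ fun u => ?_)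
  rw [Real.norm_eq_abs, abs_mul, abs_of_pos (Real.exp_pos _)]
  exact mul_le_of_le_one_left (Real.exp_pos _).le (Real.abs_cos_le_one _)

theorem cos_gauss (a k : ℝ) (ha : 0 < a) :
    ∫ u : ℝ, Real.cos (k * u) * Real.exp (-(a * u ^ 2)) =
      √(Real.pi / a) * Real.exp (-k ^ 2 / (4 * a)) := by
  have h := fourierIntegral_gaussian (b := (a : ℂ)) (by simpa using ha) (k : ℂ)
  have hi : Integrable fun u : ℝ =>
      Complex.exp (Complex.I * k * u) * Complex.exp (-(a : ℂ) * u ^ 2) := by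
    have h0 : Integrable fun u : ℝ => Real.exp (-a * u ^ 2) := integrable_exp_neg_mul_sq ha
    refine h0.mono' (by fun_prop) (ae_of_all _ fun u => le_of_eq ?_)
    rw [norm_mul, Complex.norm_exp, Complex.norm_exp]
    have e1 : (Complex.I * k * u).re = 0 := by simp
    have e2 : (-(a : ℂ) * u ^ 2).re = -a * u ^ 2 := by
      rw [← Complex.ofReal_neg, ← Complex.ofReal_pow, ← Complex.ofReal_mul, Complex.ofReal_re]
    rw [e1, e2, Real.exp_zero, one_mul]
  have h2 := congrArg Complex.re h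
  have h3 := (integral_re hi).symm
  simp only [RCLike.re_to_complex] at h3
  rw [h3] at h2
  have e3 : ∀ u : ℝ, (Complex.exp (Complex.I * k * u) * Complex.exp (-(a : ℂ) * u ^ 2)).re =
      Real.cos (k * u) * Real.exp (-(a * u ^ 2)) := by
    intro u
    have e4 : Complex.exp (-(a : ℂ) * u ^ 2) = ((Real.exp (-(a * u ^ 2)) : ℝ) : ℂ) := by
      push_cast
      rw [neg_mul]
    have e5 : Complex.I * k * u = ((k * u : ℝ) : ℂ) * Complex.I := by
      push_cast
      ring
    rw [e4, e5, Complex.re_mul_ofReal, Complex.exp_ofReal_mul_I_re]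
  simp only [e3] at h2
  rw [h2]
  have e6 : ((Real.pi : ℂ) / a) ^ (1 / 2 : ℂ) = ((√(Real.pi / a) : ℝ) : ℂ) := by
    rw [Real.sqrt_eq_rpow, Complex.ofReal_cpow (by positivity)]
    push_cast
    rfl
  have e7 : Complex.exp (-(k : ℂ) ^ 2 / (4 * a)) = ((Real.exp (-k ^ 2 / (4 * a)) : ℝ) : ℂ) := by
    push_cast
    rfl
  rw [e6, e7, ← Complex.ofReal_mul, Complex.ofReal_re]

theorem cos_tail (a k : ℝ) (ha : 1 ≤ a) :
    |(∫ u in (-1 : ℝ)..1, Real.cos (k * u) * Real.exp (-(a * u ^ 2))) -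
      √(Real.pi / a) * Real.exp (-k ^ 2 / (4 * a))| ≤ 2 * Real.exp (1 - a) := by
  have a0 : 0 < a := by linarith
  have hi := int_cos_gauss a k a0
  rw [← cos_gauss a k a0, intervalIntegral.integral_of_le (by norm_num),
    ← integral_add_compl (s := Ioc (-1 : ℝ) 1) measurableSet_Ioc hi, sub_add_cancel_left, abs_neg,
    ← integral_indicator measurableSet_Ioc.compl]
  have h0 : Integrable fun u : ℝ => Real.exp (1 - a) * Real.exp (-1 * u ^ 2) :=
    (integrable_exp_neg_mul_sq one_pos).const_mul _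
  have h1 := norm_integral_le_of_norm_le (f := (Ioc (-1 : ℝ) 1)ᶜ.indicator
    fun u : ℝ => Real.cos (k * u) * Real.exp (-(a * u ^ 2))) h0 (ae_of_all _ fun u => by
      by_cases hu : u ∈ (Ioc (-1 : ℝ) 1)ᶜ
      · rw [indicator_of_mem hu, Real.norm_eq_abs, abs_mul, abs_of_pos (Real.exp_pos _),
          ← Real.exp_add]
        refine (mul_le_of_le_one_left (Real.exp_pos _).le (Real.abs_cos_le_one _)).trans
          (Real.exp_le_exp.2 ?_)
        have h2 : 1 ≤ u ^ 2 := by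
          rw [mem_compl_iff, mem_Ioc, not_and_or, not_lt, not_le] at hu
          rcases hu with h | h <;> nlinarith
        nlinarith [mul_nonneg (sub_nonneg.2 ha) (sub_nonneg.2 h2)]
      · rw [indicator_of_notMem hu, norm_zero]
        positivity)
  rw [integral_const_mul, integral_gaussian, div_one, Real.norm_eq_abs] at h1
  have h3 : √Real.pi ≤ 2 := Real.sqrt_le_iff.2 ⟨by norm_num, by linarith [Real.pi_le_four]⟩
  nlinarith [Real.exp_pos (1 - a)]

theorem cos_poly (a k e : ℝ) (r : ℝ[X]) (ha : 1 ≤ a)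
    (hr : ∀ v : ℝ, 0 ≤ v → v ≤ 1 → |Real.exp (-(a * v)) - r.eval v| ≤ e) :
    |(∫ u in (-1 : ℝ)..1, Real.cos (k * u) * (C (√(a / Real.pi)) * r).eval (u ^ 2)) -
      Real.exp (-k ^ 2 / (4 * a))| ≤ √(a / Real.pi) * (2 * e + 2 * Real.exp (1 - a)) := by
  have a0 : 0 < a := by linarith
  have h1 := cos_tail a k ha
  have c1 : Continuous fun u : ℝ => Real.cos (k * u) * r.eval (u ^ 2) := by fun_prop
  have c2 : Continuous fun u : ℝ => Real.cos (k * u) * Real.exp (-(a * u ^ 2)) := by fun_prop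
  have h2 : |(∫ u in (-1 : ℝ)..1, Real.cos (k * u) * r.eval (u ^ 2)) -
      ∫ u in (-1 : ℝ)..1, Real.cos (k * u) * Real.exp (-(a * u ^ 2))| ≤ 2 * e := by
    rw [← intervalIntegral.integral_sub (c1.intervalIntegrable _ _) (c2.intervalIntegrable _ _)]
    have := intervalIntegral.norm_integral_le_of_norm_le_const (a := (-1 : ℝ)) (b := 1) (C := e)
      (f := fun u => Real.cos (k * u) * r.eval (u ^ 2) -
        Real.cos (k * u) * Real.exp (-(a * u ^ 2))) fun u hu => by
      rw [uIoc_of_le (by norm_num)] at hu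
      rw [← mul_sub, Real.norm_eq_abs, abs_mul, abs_sub_comm]
      refine (mul_le_of_le_one_left (abs_nonneg _) (Real.abs_cos_le_one _)).trans
        (hr _ (sq_nonneg u) ?_)
      nlinarith [hu.1, hu.2]
    rw [Real.norm_eq_abs] at this
    norm_num at this ⊢
    linarith
  have e1 : ∀ u : ℝ, Real.cos (k * u) * (C (√(a / Real.pi)) * r).eval (u ^ 2) =
      √(a / Real.pi) * (Real.cos (k * u) * r.eval (u ^ 2)) := fun u => by
    rw [eval_mul, eval_C]; ring
  have e2 : √(a / Real.pi) * √(Real.pi / a) = 1 := by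
    rw [← Real.sqrt_mul (by positivity), div_mul_div_comm, mul_comm a, div_self (by positivity),
      Real.sqrt_one]
  simp only [e1]
  rw [intervalIntegral.integral_const_mul]
  have e3 : Real.exp (-k ^ 2 / (4 * a)) =
      √(a / Real.pi) * (√(Real.pi / a) * Real.exp (-k ^ 2 / (4 * a))) := by
    rw [← mul_assoc, e2, one_mul]
  rw [e3, ← mul_sub, abs_mul, abs_of_nonneg (Real.sqrt_nonneg _)]
  refine mul_le_mul_of_nonneg_left ?_ (Real.sqrt_nonneg _)
  exact (abs_sub_le _ _ _).trans (add_le_add h2 h1)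

theorem num1 : Real.exp (99 / 200) ≤ 33 / 20 := by
  have h : Real.exp (99 / 200) ^ 2 ≤ (33 / 20) ^ 2 := by
    rw [← Real.exp_nat_mul]
    refine (Real.exp_le_exp.2 (show _ ≤ (1 : ℝ) by norm_num)).trans ?_
    linarith [Real.exp_one_lt_d9]
  exact le_of_sq_le_sq (by simpa only [sq] using h) (by norm_num) |>.trans le_rfl

theorem num2 : Real.exp (-(22 / 25)) ≤ 200 / 481 := by
  have h := Real.sum_le_exp_of_nonneg (x := 22 / 25) (by norm_num) 5
  simp only [Finset.sum_range_succ, Finset.sum_range_zero, Nat.factorial] at h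
  rw [Real.exp_neg, inv_le_comm₀ (Real.exp_pos _) (by norm_num)]
  refine le_trans ?_ h
  norm_num

theorem gaussApx (ε : ℝ) (hε : 0 < ε) : ∃ l₀ : ℕ, ∀ l : ℕ, l₀ ≤ l → ∃ (a : ℝ) (r : ℝ[X]),
    1 ≤ a ∧ r.natDegree ≤ l ∧ ∀ k : ℝ,
      |(∫ u in (-1 : ℝ)..1, Real.cos (k * u) * r.eval (u ^ 2)) - Real.exp (-k ^ 2 / (4 * a))| ≤
        ε / (31 / 20) ^ (2 * l + 4) := by
  have t1 := tendsto_self_mul_const_pow_of_lt_one (r := (961 / 962 : ℝ)) (by norm_num)
    (by norm_num)
  obtain ⟨l₀, h0⟩ := eventually_atTop.1 (t1.eventually (gt_mem_nhds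
    (show (0 : ℝ) < ε / 100 by positivity)))
  refine ⟨l₀ + 2, fun l hl => ?_⟩
  have l2 : (2 : ℝ) ≤ l := by exact_mod_cast (by omega : 2 ≤ l)
  have a1 : (1 : ℝ) ≤ 22 / 25 * l := by linarith
  obtain ⟨r, d1, hr⟩ := approxExp l (22 / 25 * l) 4 (by linarith) (by norm_num)
  refine ⟨22 / 25 * l, C (√(22 / 25 * l / Real.pi)) * r, a1,
    (natDegree_C_mul_le _ _).trans d1, fun k => (cos_poly _ k _ r a1 hr).trans ?_⟩
  have s1 : √(22 / 25 * l / Real.pi) ≤ l := by
    refine Real.sqrt_le_iff.2 ⟨by linarith, ?_⟩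
    rw [div_le_iff₀ Real.pi_pos]
    nlinarith [Real.pi_gt_three]
  have q0 : (0 : ℝ) < (961 / 400) ^ l := by positivity
  have b1 : ((4 : ℝ) ^ l)⁻¹ * Real.exp (22 / 25 * l / 2 * ((4 + 4⁻¹) / 2 - 1)) ≤
      (200 / 481) ^ l := by
    have e : (22 / 25 * l / 2 * ((4 + 4⁻¹) / 2 - 1) : ℝ) = l * (99 / 200) := by ring
    rw [e, Real.exp_nat_mul, ← inv_pow, ← mul_pow]
    refine pow_le_pow_left₀ (by positivity) ?_ _
    linarith [num1]
  have b2 : Real.exp (1 - 22 / 25 * l) ≤ 3 * (200 / 481) ^ l := by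
    have e : (1 - 22 / 25 * l : ℝ) = 1 + l * -(22 / 25) := by ring
    rw [e, Real.exp_add, Real.exp_nat_mul]
    exact mul_le_mul (by linarith [Real.exp_one_lt_d9])
      (pow_le_pow_left₀ (Real.exp_pos _).le num2 _) (by positivity) (by norm_num)
  have b3 := h0 l (by omega)
  have e1 : ((961 / 962 : ℝ)) ^ l = (200 / 481) ^ l * (961 / 400) ^ l := by
    rw [← mul_pow]; norm_num
  have e2 : ((31 / 20 : ℝ)) ^ (2 * l + 4) = (961 / 400) ^ l * (31 / 20) ^ 4 := by
    rw [pow_add, pow_mul]; norm_num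
  rw [le_div_iff₀ (by positivity), e2]
  rw [e1] at b3
  have b4 : √(22 / 25 * l / Real.pi) *
      (2 * (3 * ((4 : ℝ) ^ l)⁻¹ * Real.exp (22 / 25 * l / 2 * ((4 + 4⁻¹) / 2 - 1))) +
        2 * Real.exp (1 - 22 / 25 * l)) ≤ l * (12 * (200 / 481) ^ l) :=
    mul_le_mul s1 (by linarith) (by positivity) (by linarith)
  refine (mul_le_mul_of_nonneg_right b4 (by positivity)).trans ?_
  have p0 : (0 : ℝ) ≤ l * ((200 / 481) ^ l * (961 / 400) ^ l) := by positivity
  nlinarith

end Pool.Agent.MP_66cee2_co.H12
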