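import Pool.Agent.MP_66cee2_co.H12.Meh

/-
The Mehler form: log-convexity and decay.
-/

namespace Pool.Agent.MP_66cee2_co.H12M

open MeasureTheory Set Filter Pool.Agent.MP_66cee2_co.X Pool.Agent.MP_66cee2_co.B
open scoped RealInnerProductSpace

variable {d : ℕ}

/-- the Mehler form. -/
noncomputable def ph (σ l : ℝ) (f g : E d → ℝ) : ℝ := ∫ x, ∫ y, K σ l x y * (f x * g y)

/-- the Mehler operator times the window. -/
noncomputable def T (σ l : ℝ) (f : E d → ℝ) (z : E d) : ℝ := ∫ x, K σ l x z * f x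

theorem mul_lt {m n : ℝ} (hm : m ^ 2 < 1) (hn : n ^ 2 < 1) : (m * n) ^ 2 < 1 := by
  nlinarith [sq_nonneg m, sq_nonneg n]

theorem ph_int {σ l A : ℝ} (hσ : 0 < σ) (hl : l ^ 2 < 1) {f g : E d → ℝ} (hf : Measurable f)
    (hg : Measurable g) (bf : ∀ x, |f x| ≤ A) (bg : ∀ x, |g x| ≤ A) :
    Integrable (fun q : E d × E d => K σ l q.1 q.2 * (f q.1 * g q.2)) (volume.prod volume) := by
  refine (K_integrable hσ hl).mul_bdd (c := A * A)
    ((hf.comp measurable_fst).mul (hg.comp measurable_snd)).aestronglyMeasurable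
    (Eventually.of_forall fun q => ?_)
  rw [Real.norm_eq_abs, abs_mul]
  exact mul_le_mul (bf _) (bg _) (abs_nonneg _) ((abs_nonneg _).trans (bf q.1))

theorem ph_semi {σ m n A : ℝ} (hσ : 0 < σ) (hm : m ^ 2 < 1) (hn : n ^ 2 < 1) {f g : E d → ℝ}
    (hf : Measurable f) (hg : Measurable g) (bf : ∀ x, |f x| ≤ A) (bg : ∀ x, |g x| ≤ A) :
    Integrable (fun z => T σ m f z * T σ n g z / G d σ z) ∧
      ph σ (m * n) f g = ∫ z, T σ m f z * T σ n g z / G d σ z := by
  have hi := ph_int hσ (mul_lt hm hn) hf hg bf bg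
  set F : E d × E d → E d → ℝ :=
    fun q z => K σ m q.1 z * K σ n z q.2 / G d σ z * (f q.1 * g q.2) with hF
  have hc : Continuous fun r : (E d × E d) × E d =>
      K σ m r.1.1 r.2 * K σ n r.2 r.1.2 / G d σ r.2 :=
    (((K_cont σ m).comp (f := fun r : (E d × E d) × E d => (r.1.1, r.2)) (by fun_prop)).mul
      ((K_cont σ n).comp (f := fun r : (E d × E d) × E d => (r.2, r.1.2)) (by fun_prop))).div
      ((G_cont σ).comp continuous_snd) fun r => (G_pos hσ _).ne'
  have hI : Integrable (Function.uncurry F) ((volume.prod volume).prod volume) := by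
    refine (integrable_prod_iff (hc.measurable.mul
      ((hf.comp (measurable_fst.comp measurable_fst)).mul
        (hg.comp (measurable_snd.comp measurable_fst)))).aestronglyMeasurable).2
      ⟨Eventually.of_forall fun q =>
        (K_semi hσ hm hn q.1 q.2).1.mul_const (f q.1 * g q.2), ?_⟩
    refine hi.norm.congr (Eventually.of_forall fun q => ?_)
    have h1 : ∀ z, ‖K σ m q.1 z * K σ n z q.2 / G d σ z * (f q.1 * g q.2)‖ =
        K σ m q.1 z * K σ n z q.2 / G d σ z * ‖f q.1 * g q.2‖ := fun z => by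
      rw [norm_mul, Real.norm_of_nonneg
        (div_pos (mul_pos (K_pos hσ hm _ _) (K_pos hσ hn _ _)) (G_pos hσ _)).le]
    simp only [Function.comp, Pi.mul_apply, h1]
    rw [integral_mul_const, (K_semi hσ hm hn q.1 q.2).2, norm_mul,
      Real.norm_of_nonneg (K_pos hσ (mul_lt hm hn) _ _).le]
  have h2 : ∀ z, ∫ q, F q z ∂(volume.prod volume) = T σ m f z * T σ n g z / G d σ z := by
    intro z
    rw [T, T, ← integral_prod_mul, ← integral_div]
    refine integral_congr_ae (Eventually.of_forall fun q => ?_)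
    simp only [hF]
    rw [K_symm hn z]
    ring
  refine ⟨hI.integral_prod_right.congr (Eventually.of_forall h2), ?_⟩
  rw [ph, ← integral_prod _ hi]
  simp_rw [← h2]
  rw [← integral_integral_swap hI]
  refine integral_congr_ae (Eventually.of_forall fun q => ?_)
  simp only [hF]
  rw [integral_mul_const, (K_semi hσ hm hn q.1 q.2).2]

theorem ph_quad {σ m n A : ℝ} (hσ : 0 < σ) (hm : m ^ 2 < 1) (hn : n ^ 2 < 1) {f : E d → ℝ}
    (hf : Measurable f) (bf : ∀ x, |f x| ≤ A) (t : ℝ) :
    0 ≤ ph σ (n * n) f f * (t * t) + -(2 * ph σ (m * n) f f) * t + ph σ (m * m) f f := by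
  obtain ⟨a1, a2⟩ := ph_semi hσ hn hn hf hf bf bf
  obtain ⟨b1, b2⟩ := ph_semi hσ hm hn hf hf bf bf
  obtain ⟨c1, c2⟩ := ph_semi hσ hm hm hf hf bf bf
  have h := integral_add ((a1.mul_const (t * t)).add (b1.mul_const (-(2 * t)))) c1
  have h' := integral_add (a1.mul_const (t * t)) (b1.mul_const (-(2 * t)))
  simp only [Pi.add_apply] at h
  rw [h', integral_mul_const, integral_mul_const, ← a2, ← b2, ← c2] at h
  have h0 : 0 ≤ ∫ z, (T σ n f z * T σ n f z / G d σ z * (t * t) +
      T σ m f z * T σ n f z / G d σ z * -(2 * t) + T σ m f z * T σ m f z / G d σ z) := by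
    refine integral_nonneg fun z => ?_
    have e : T σ n f z * T σ n f z / G d σ z * (t * t) +
        T σ m f z * T σ n f z / G d σ z * -(2 * t) + T σ m f z * T σ m f z / G d σ z =
        (T σ n f z * t - T σ m f z) ^ 2 / G d σ z := by ring
    simp only [Pi.zero_apply]
    rw [e]
    exact div_nonneg (sq_nonneg _) (G_pos hσ _).le
  linarith

/-- log-convexity. -/
theorem ph_cs {ι : Type} [Fintype ι] {σ m n A : ℝ} (hσ : 0 < σ) (hm : m ^ 2 < 1)
    (hn : n ^ 2 < 1) {f : ι → E d → ℝ} (hf : ∀ i, Measurable (f i)) (bf : ∀ i x, |f i x| ≤ A) :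
    (∑ i, ph σ (m * n) (f i) (f i)) ^ 2 ≤
      (∑ i, ph σ (m * m) (f i) (f i)) * ∑ i, ph σ (n * n) (f i) (f i) := by
  have h := discrim_le_zero (a := ∑ i, ph σ (n * n) (f i) (f i))
    (b := -(2 * ∑ i, ph σ (m * n) (f i) (f i))) (c := ∑ i, ph σ (m * m) (f i) (f i)) fun t => by
      have h1 := Finset.sum_nonneg fun i (_ : i ∈ Finset.univ) =>
        ph_quad hσ hm hn (hf i) (bf i) t
      simp only [Finset.sum_add_distrib, ← Finset.sum_mul, Finset.sum_neg_distrib,
        ← Finset.mul_sum] at h1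
      exact h1
  rw [discrim] at h
  nlinarith

theorem ph_zero (σ : ℝ) (f g : E d → ℝ) :
    ph σ 0 f g = (∫ x, G d σ x * f x) * ∫ x, G d σ x * g x := by
  rw [ph, ← integral_mul_const]
  refine integral_congr_ae (Eventually.of_forall fun x => ?_)
  simp only
  rw [← integral_const_mul]
  refine integral_congr_ae (Eventually.of_forall fun y => ?_)
  simp only [K_zero]
  ring

/-- the form dominates the square of the mean. -/
theorem ph_ge {σ l A : ℝ} (hσ : 0 < σ) (h0 : 0 ≤ l) (hl : l < 1) {f : E d → ℝ}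
    (hf : Measurable f) (bf : ∀ x, |f x| ≤ A) : (∫ x, G d σ x * f x) ^ 2 ≤ ph σ l f f := by
  have hm : √l ^ 2 < 1 := by rwa [Real.sq_sqrt h0]
  have h := ph_quad hσ hm (n := 0) (by norm_num) hf bf 1
  rw [mul_zero, mul_zero, Real.mul_self_sqrt h0, ph_zero] at h
  nlinarith

end Pool.Agent.MP_66cee2_co.H12M
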