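import Pool.Agent.MP_66cee2_co.B.Spec

/-
Products of Gaussians and the Mehler kernel.
-/

namespace Pool.Agent.MP_66cee2_co.H12M

open MeasureTheory Set Pool.Agent.MP_66cee2_co.X Pool.Agent.MP_66cee2_co.B
open scoped RealInnerProductSpace

variable {d : ℕ}

theorem G_pos {a : ℝ} (ha : 0 < a) (w : E d) : 0 < G d a w :=
  mul_pos (Real.rpow_pos_of_pos (div_pos ha Real.pi_pos) _) (Real.exp_pos _)

theorem G_cont (a : ℝ) : Continuous (G d a) := by
  unfold G; fun_prop

theorem G_int {a : ℝ} (ha : 0 < a) : ∫ w, G d a w = 1 := by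
  unfold G
  rw [integral_const_mul, GaussianFourier.integral_rexp_neg_mul_sq_norm ha, finrank_euclideanSpace,
    Fintype.card_fin, ← Real.mul_rpow (div_pos ha Real.pi_pos).le (div_pos Real.pi_pos ha).le]
  have : a / Real.pi * (Real.pi / a) = 1 := by
    have := Real.pi_pos
    field_simp
  rw [this, Real.one_rpow]

theorem G_integrable {a : ℝ} (ha : 0 < a) : Integrable (G d a) :=
  Integrable.of_integral_ne_zero (by rw [G_int ha]; exact one_ne_zero)

theorem G_mul {α β : ℝ} (hα : 0 < α) (hβ : 0 < β) (ν : ℝ) (p y z : E d) :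
    G d α (z - p) * G d β (y - ν • z) =
      G d (α + β * ν ^ 2) (z - (α + β * ν ^ 2)⁻¹ • (α • p + (β * ν) • y)) *
        G d (α * β / (α + β * ν ^ 2)) (y - ν • p) := by
  have hs : 0 < α + β * ν ^ 2 := by positivity
  have hπ := Real.pi_pos
  unfold G
  rw [mul_mul_mul_comm, mul_mul_mul_comm (((α + β * ν ^ 2) / Real.pi) ^ _), ← Real.exp_add,
    ← Real.exp_add, ← Real.mul_rpow (by positivity) (by positivity),
    ← Real.mul_rpow (by positivity) (by positivity)]
  congr 2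
  · field_simp
  · simp only [← real_inner_self_eq_norm_sq, inner_sub_left, inner_sub_right, inner_add_left,
      inner_add_right, real_inner_smul_left, real_inner_smul_right, real_inner_comm z p,
      real_inner_comm z y, real_inner_comm p y]
    field_simp
    ring

theorem G_conv {α β : ℝ} (hα : 0 < α) (hβ : 0 < β) (ν : ℝ) (p y : E d) :
    Integrable (fun z => G d α (z - p) * G d β (y - ν • z)) ∧
      ∫ z, G d α (z - p) * G d β (y - ν • z) = G d (α * β / (α + β * ν ^ 2)) (y - ν • p) := by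
  have hs : 0 < α + β * ν ^ 2 := by positivity
  simp_rw [G_mul hα hβ]
  refine ⟨((G_integrable hs).comp_sub_right _).mul_const _, ?_⟩
  rw [integral_mul_const, integral_sub_right_eq_self (G d (α + β * ν ^ 2)), G_int hs, one_mul]

/-- the Mehler kernel for the window `G d σ`. -/
noncomputable def K (σ l : ℝ) (x y : E d) : ℝ := G d σ x * G d (σ / (1 - l ^ 2)) (y - l • x)

theorem K_pos {σ l : ℝ} (hσ : 0 < σ) (hl : l ^ 2 < 1) (x y : E d) : 0 < K σ l x y :=
  mul_pos (G_pos hσ _) (G_pos (div_pos hσ (sub_pos.2 hl)) _)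

theorem K_cont (σ l : ℝ) : Continuous fun q : E d × E d => K σ l q.1 q.2 := by
  unfold K G; fun_prop

theorem K_zero (σ : ℝ) (x y : E d) : K σ 0 x y = G d σ x * G d σ y := by simp [K]

theorem K_exp {σ l : ℝ} (hl : l ^ 2 < 1) (x y : E d) :
    K σ l x y = (σ / Real.pi) ^ ((d : ℝ) / 2) * (σ / (1 - l ^ 2) / Real.pi) ^ ((d : ℝ) / 2) *
      Real.exp (-(σ / (1 - l ^ 2)) * (‖x‖ ^ 2 + ‖y‖ ^ 2 - 2 * l * ⟪x, y⟫)) := by
  have h := (sub_pos.2 hl).ne'
  unfold K G
  rw [mul_mul_mul_comm, ← Real.exp_add]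
  congr 2
  simp only [← real_inner_self_eq_norm_sq, inner_sub_left, inner_sub_right, real_inner_smul_left,
    real_inner_smul_right, real_inner_comm x y]
  field_simp
  ring

theorem K_symm {σ l : ℝ} (hl : l ^ 2 < 1) (x y : E d) : K σ l x y = K σ l y x := by
  rw [K_exp hl, K_exp hl, add_comm (‖x‖ ^ 2), real_inner_comm]

theorem K_marg {σ l : ℝ} (hσ : 0 < σ) (hl : l ^ 2 < 1) (x : E d) :
    Integrable (fun y => K σ l x y) ∧ ∫ y, K σ l x y = G d σ x := by
  have hb : 0 < σ / (1 - l ^ 2) := div_pos hσ (sub_pos.2 hl)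
  unfold K
  refine ⟨((G_integrable hb).comp_sub_right _).const_mul _, ?_⟩
  rw [integral_const_mul, integral_sub_right_eq_self (G d (σ / (1 - l ^ 2))), G_int hb, mul_one]

theorem K_integrable {σ l : ℝ} (hσ : 0 < σ) (hl : l ^ 2 < 1) :
    Integrable (fun q : E d × E d => K σ l q.1 q.2) (volume.prod volume) := by
  refine (integrable_prod_iff (K_cont σ l).aestronglyMeasurable).2
    ⟨Filter.Eventually.of_forall fun x => (K_marg hσ hl x).1, ?_⟩
  refine (G_integrable (d := d) hσ).congr (Filter.Eventually.of_forall fun x => ?_)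
  simp only [Real.norm_eq_abs, abs_of_pos (K_pos hσ hl _ _), (K_marg hσ hl x).2]

theorem K_semi {σ m n : ℝ} (hσ : 0 < σ) (hm : m ^ 2 < 1) (hn : n ^ 2 < 1) (x y : E d) :
    Integrable (fun z => K σ m x z * K σ n z y / G d σ z) ∧
      ∫ z, K σ m x z * K σ n z y / G d σ z = K σ (m * n) x y := by
  have h1 := sub_pos.2 hm
  have h2 := sub_pos.2 hn
  have h3 : 0 < 1 - (m * n) ^ 2 := by nlinarith [sq_nonneg m, sq_nonneg n]
  have e : ∀ z, K σ m x z * K σ n z y / G d σ z =
      G d σ x * (G d (σ / (1 - m ^ 2)) (z - m • x) * G d (σ / (1 - n ^ 2)) (y - n • z)) := by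
    intro z
    have := (G_pos hσ z).ne'
    unfold K
    field_simp
  obtain ⟨a1, a2⟩ := G_conv (div_pos hσ h1) (div_pos hσ h2) n (m • x) y
  simp_rw [e]
  refine ⟨a1.const_mul _, ?_⟩
  rw [integral_const_mul, a2, K, smul_smul, mul_comm n m]
  congr 2
  have h4 : σ / (1 - m ^ 2) + σ / (1 - n ^ 2) * n ^ 2 =
      σ * (1 - (m * n) ^ 2) / ((1 - m ^ 2) * (1 - n ^ 2)) := by
    field_simp; ring
  rw [h4]
  field_simp

theorem K_factor {σ l : ℝ} (hσ : 0 < σ) (h0 : 0 < l) (hl : l < 1) (x y : E d) :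
    K σ l x y = (σ / (l * Real.pi)) ^ ((d : ℝ) / 2) * G d (σ * l / (1 - l ^ 2)) (y - x) *
      Real.exp (-(σ / (1 + l)) * ‖x‖ ^ 2) * Real.exp (-(σ / (1 + l)) * ‖y‖ ^ 2) := by
  have h1 : l ^ 2 < 1 := by nlinarith
  have h2 := sub_pos.2 h1
  have h3 := sub_pos.2 hl
  have hπ := Real.pi_pos
  rw [K_exp h1, G, ← mul_assoc, mul_assoc, mul_assoc, mul_assoc _ (Real.exp _),
    mul_assoc _ (Real.exp _), ← Real.exp_add, ← Real.exp_add, ← mul_assoc,
    ← Real.mul_rpow (by positivity) (by positivity),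
    ← Real.mul_rpow (by positivity) (by positivity)]
  congr 2
  · field_simp
  · have e : 1 - l ^ 2 = (1 - l) * (1 + l) := by ring
    simp only [← real_inner_self_eq_norm_sq, inner_sub_left, inner_sub_right,
      real_inner_comm x y, e]
    field_simp
    ring

theorem w_le {σ l : ℝ} (hσ : 0 < σ) (h0 : 0 < l) (hl : l < 1) (x : E d) :
    (σ / (l * Real.pi)) ^ ((d : ℝ) / 2) * Real.exp (-(σ / (1 + l)) * ‖x‖ ^ 2) ^ 2 ≤
      l⁻¹ ^ ((d : ℝ) / 2) * G d σ x := by
  have hπ := Real.pi_pos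
  rw [G, ← mul_assoc, ← Real.mul_rpow (by positivity) (by positivity), ← Real.exp_nat_mul]
  have e : l⁻¹ * (σ / Real.pi) = σ / (l * Real.pi) := by field_simp
  rw [e]
  refine mul_le_mul_of_nonneg_left (Real.exp_le_exp.2 ?_) (by positivity)
  have h1 : σ ≤ 2 * (σ / (1 + l)) := by
    rw [← mul_div_assoc, le_div_iff₀ (by positivity)]; nlinarith
  push_cast
  nlinarith [sq_nonneg ‖x‖]

end Pool.Agent.MP_66cee2_co.H12M
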