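import Mathlib

/-
Legendre and Bessel polynomials: a convolution identity at the edge.
-/

namespace Pool.Agent.MP_66cee2_co.H12L

open Polynomial MeasureTheory Set

/-- Legendre polynomials and their derivatives. -/
noncomputable def PD : ℕ → ℝ[X] × ℝ[X]
  | 0 => (1, 0)
  | l + 1 => (X * (PD l).1 - C (1 / ((l : ℝ) + 1)) * (1 - X ^ 2) * (PD l).2,
      X * (PD l).2 + C ((l : ℝ) + 1) * (PD l).1)

/-- Legendre polynomials. -/
noncomputable def Leg (l : ℕ) : ℝ[X] := (PD l).1

/-- their derivatives. -/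
noncomputable def Dl (l : ℕ) : ℝ[X] := (PD l).2

theorem Leg_zero : Leg 0 = 1 := rfl
theorem Dl_zero : Dl 0 = 0 := rfl
theorem Leg_succ (l : ℕ) :
    Leg (l + 1) = X * Leg l - C (1 / ((l : ℝ) + 1)) * (1 - X ^ 2) * Dl l := rfl
theorem Dl_succ (l : ℕ) : Dl (l + 1) = X * Dl l + C ((l : ℝ) + 1) * Leg l := rfl

theorem cinv (l : ℕ) : (C (1 / ((l : ℝ) + 1)) : ℝ[X]) * ((l : ℝ[X]) + 1) = 1 := by
  have h : ((l : ℝ[X]) + 1) = C ((l : ℝ) + 1) := by simp
  rw [h, ← C_mul, one_div, inv_mul_cancel₀ (by positivity), C_1]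

theorem cnat (l : ℕ) : (C ((l : ℝ) + 1) : ℝ[X]) = (l : ℝ[X]) + 1 := by simp

theorem ode (l : ℕ) : derivative (Leg l) = Dl l ∧ (1 - X ^ 2) * derivative (Dl l) =
    2 * X * Dl l - (l : ℝ[X]) * ((l : ℝ[X]) + 1) * Leg l := by
  induction l with
  | zero => simp [Leg_zero, Dl_zero]
  | succ l ih =>
    obtain ⟨h1, h2⟩ := ih
    have hc := cinv l
    constructor
    · rw [Leg_succ, Dl_succ, cnat]
      simp only [derivative_sub, derivative_mul, derivative_X, derivative_C, derivative_one,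
        derivative_X_pow, h1, Nat.cast_ofNat, map_ofNat]
      linear_combination (-C (1 / ((l : ℝ) + 1))) * h2 + ((l : ℝ[X]) * Leg l) * hc
    · rw [Leg_succ, Dl_succ]
      simp only [derivative_add, derivative_mul, derivative_X, derivative_C, h1]
      rw [cnat]
      push_cast
      linear_combination X * h2 - (((l : ℝ[X]) + 2) * (1 - X ^ 2) * Dl l) * hc

theorem Dl_two (l : ℕ) : Dl (l + 2) - Dl l = (2 * (l : ℝ[X]) + 3) * Leg (l + 1) := by
  have hc := cinv l
  rw [Dl_succ (l + 1), cnat, Dl_succ l, cnat, Leg_succ]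
  push_cast
  linear_combination ((1 - X ^ 2) * Dl l) * hc

theorem Leg_one (l : ℕ) : (Leg l).eval 1 = 1 := by
  induction l with
  | zero => simp [Leg_zero]
  | succ l ih => simp [Leg_succ, ih]

theorem deg (l : ℕ) : (Leg l).natDegree ≤ l ∧ (Dl (l + 1)).natDegree ≤ l := by
  induction l with
  | zero => simp [Leg_zero, Dl_succ, Dl_zero]
  | succ l ih =>
    obtain ⟨h1, h2⟩ := ih
    have h3 : (Leg (l + 1)).natDegree ≤ l + 1 := by
      have h := natDegree_le_iff_coeff_eq_zero.1 h2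
      rw [← (ode (l + 1)).1] at h
      refine natDegree_le_iff_coeff_eq_zero.2 fun N hN => ?_
      obtain ⟨M, rfl⟩ : ∃ M, N = M + 1 := ⟨N - 1, by omega⟩
      have h4 := h M (by omega)
      rw [coeff_derivative] at h4
      exact (mul_eq_zero.1 h4).resolve_right (by positivity)
    refine ⟨h3, ?_⟩
    rw [Dl_succ (l + 1)]
    refine (natDegree_add_le _ _).trans (max_le ?_ ((natDegree_C_mul_le _ _).trans h3))
    refine natDegree_mul_le.trans ?_
    rw [natDegree_X]; omega

theorem energy (l : ℕ) {x : ℝ} (hx : x ^ 2 ≤ 1) :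
    (Leg l).eval x ^ 2 + (1 - x ^ 2) * ((Dl l).eval x / (l + 1)) ^ 2 ≤ 1 := by
  induction l with
  | zero => simp [Leg_zero, Dl_zero]
  | succ l ih =>
    have h0 : (0 : ℝ) < l + 1 := by positivity
    have h1 : ((Dl (l + 1)).eval x / ((l + 1 : ℕ) + 1)) ^ 2 ≤
        ((Dl (l + 1)).eval x / (l + 1)) ^ 2 := by
      rw [div_pow, div_pow]
      refine div_le_div_of_nonneg_left (sq_nonneg _) (by positivity) ?_
      push_cast; nlinarith
    have h2 : (Leg (l + 1)).eval x ^ 2 + (1 - x ^ 2) * ((Dl (l + 1)).eval x / (l + 1)) ^ 2 =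
        (Leg l).eval x ^ 2 + (1 - x ^ 2) * ((Dl l).eval x / (l + 1)) ^ 2 := by
      simp only [Leg_succ, Dl_succ, eval_sub, eval_add, eval_mul, eval_X, eval_C, eval_one,
        eval_pow]
      field_simp
      ring
    have h3 := mul_le_mul_of_nonneg_left h1 (sub_nonneg.2 hx)
    linarith

theorem abs_Leg (l : ℕ) {x : ℝ} (hx : x ^ 2 ≤ 1) : |(Leg l).eval x| ≤ 1 := by
  have h := energy l hx
  have h1 := mul_nonneg (sub_nonneg.2 hx) (sq_nonneg ((Dl l).eval x / (l + 1)))
  exact abs_le_one_iff_mul_self_le_one.2 (by nlinarith)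

theorem grow (l : ℕ) {z w : ℝ} (hz : 1 ≤ z) (hw : 0 ≤ w) (e : w ^ 2 = z ^ 2 - 1) :
    0 ≤ (Dl l).eval z ∧ w * ((Dl l).eval z / (l + 1)) ≤ (Leg l).eval z ∧
      (z + w) ^ l ≤ (l + 1) * ((Leg l).eval z + w * ((Dl l).eval z / (l + 1))) := by
  induction l with
  | zero => simp [Leg_zero, Dl_zero]
  | succ l ih =>
    obtain ⟨h1, h2, h3⟩ := ih
    have h0 : (0 : ℝ) < l + 1 := by positivity
    set p := (Leg l).eval z
    set q := (Dl l).eval z / (l + 1) with hq
    have hq0 : 0 ≤ q := by positivity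
    have hp0 : 0 ≤ p := (mul_nonneg hw hq0).trans h2
    have e1 : (Leg (l + 1)).eval z = z * p + w ^ 2 * q := by
      simp only [Leg_succ, eval_sub, eval_mul, eval_X, eval_C, eval_one, eval_pow, e, hq]
      field_simp
      ring
    have e2 : (Dl (l + 1)).eval z = (l + 1) * (z * q + p) := by
      simp only [Dl_succ, eval_add, eval_mul, eval_X, eval_C, hq]
      field_simp
      rfl
    have hwz : w ≤ z := by nlinarith
    have hs : 0 ≤ z * q + p := by positivity
    have e3 : (Dl (l + 1)).eval z / ((l + 1 : ℕ) + 1) =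
        (l + 1) / (l + 2) * (z * q + p) := by
      rw [e2]; push_cast; field_simp; ring
    have hr : ((l : ℝ) + 1) / (l + 2) ≤ 1 := (div_le_one (by positivity)).2 (by linarith)
    refine ⟨by rw [e2]; positivity, ?_, ?_⟩
    · rw [e1, e3]
      have h4 : w * ((l + 1) / (l + 2) * (z * q + p)) ≤ w * (z * q + p) :=
        mul_le_mul_of_nonneg_left (mul_le_of_le_one_left hs hr) hw
      nlinarith [mul_nonneg (sub_nonneg.2 hwz) (sub_nonneg.2 h2)]
    · rw [e1, e3]
      have h5 : (((l + 1 : ℕ) : ℝ) + 1) * (z * p + w ^ 2 * q +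
          w * ((l + 1) / (l + 2) * (z * q + p))) =
          (z + w) * ((l + 1) * (p + w * q)) + (z * p + w ^ 2 * q) := by
        push_cast; field_simp; ring
      rw [h5, pow_succ, mul_comm]
      have h6 := mul_le_mul_of_nonneg_left h3 (by positivity : 0 ≤ z + w)
      have h7 : 0 ≤ z * p + w ^ 2 * q := by positivity
      linarith

theorem Leg_ge (l : ℕ) {z w : ℝ} (hz : 1 ≤ z) (hw : 0 ≤ w) (e : w ^ 2 ≤ z ^ 2 - 1) :
    (z + w) ^ l ≤ 2 * (l + 1) * (Leg l).eval z := by
  have h0 : 0 ≤ z ^ 2 - 1 := by nlinarith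
  obtain ⟨-, h2, h3⟩ := grow l hz (Real.sqrt_nonneg (z ^ 2 - 1)) (Real.sq_sqrt h0)
  have h4 : (z + w) ^ l ≤ (z + √(z ^ 2 - 1)) ^ l :=
    pow_le_pow_left₀ (by positivity) (by linarith [Real.le_sqrt_of_sq_le e]) l
  have h5 := mul_le_mul_of_nonneg_left h2 (by positivity : (0 : ℝ) ≤ l + 1)
  nlinarith

/-- the Borel transform. -/
noncomputable def B : ℝ[X] →ₗ[ℝ] ℝ[X] :=
  Polynomial.lsum fun j => ((j.factorial : ℝ)⁻¹) • Polynomial.monomial j

theorem B_mon (j : ℕ) (a : ℝ) : B (monomial j a) = monomial j (a / j.factorial) := by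
  rw [B, lsum_apply, sum_monomial_index _ _ (by simp)]
  simp [smul_monomial, div_eq_inv_mul]

theorem B_one : B 1 = 1 := by
  rw [← monomial_zero_one, B_mon]; simp

theorem B_C (c : ℝ) (U : ℝ[X]) : B (C c * U) = C c * B U := by
  rw [← smul_eq_C_mul, map_smul, smul_eq_C_mul]

theorem B_X (U : ℝ[X]) : derivative (B (X * U)) = B U ∧ (B (X * U)).eval 0 = 0 ∧
    B (X * derivative (X * U)) = X * B U := by
  induction U using Polynomial.induction_on' with
  | add p q hp hq =>
    simp only [mul_add, map_add, eval_add, hp.1, hq.1, hp.2.1, hq.2.1, hp.2.2, hq.2.2]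
    simp
  | monomial j a =>
    have hf : ((j.factorial : ℕ) : ℝ) ≠ 0 := by positivity
    have h0 : ((j : ℝ) + 1) ≠ 0 := by positivity
    simp only [X_mul_monomial, B_mon, derivative_monomial_succ, Nat.factorial_succ]
    push_cast
    refine ⟨?_, by simp, ?_⟩
    · congr 1; field_simp
    · congr 1; field_simp

theorem ftc (p : ℝ[X]) (u : ℝ) :
    ∫ s in (0 : ℝ)..u, (derivative p).eval s = p.eval u - p.eval 0 :=
  intervalIntegral.integral_eq_sub_of_hasDerivAt (fun s _ => p.hasDerivAt s)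
    ((derivative p).continuous.intervalIntegrable _ _)

/-- convolution of two polynomials. -/
noncomputable def cv (p q : ℝ[X]) (u : ℝ) : ℝ := ∫ s in (0 : ℝ)..u, p.eval s * q.eval (u - s)

theorem cv_int (p q : ℝ[X]) (u : ℝ) :
    IntervalIntegrable (fun s => p.eval s * q.eval (u - s)) volume 0 u :=
  (p.continuous.mul (q.continuous.comp (by fun_prop))).intervalIntegrable _ _

theorem cv_parts (U V : ℝ[X]) (u : ℝ) : cv (B U) (B (X * V)) u = cv (B (X * U)) (B V) u := by
  have h := ftc (B (X * U) * (B (X * V)).comp (C u - X)) u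
  simp only [derivative_mul, derivative_comp, (B_X U).1, (B_X V).1, eval_add, eval_mul,
    eval_comp, eval_sub, eval_C, eval_X, sub_self, (B_X U).2.1, (B_X V).2.1, derivative_sub,
    derivative_C, derivative_X, eval_zero, eval_one, mul_zero, zero_mul] at h
  rw [eq_comm, ← sub_eq_zero, cv, cv,
    ← intervalIntegral.integral_sub (cv_int _ _ _) (cv_int _ _ _)]
  refine Eq.trans ?_ (neg_eq_zero.2 h)
  rw [← intervalIntegral.integral_neg]
  refine intervalIntegral.integral_congr fun s _ => ?_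
  ring

theorem cv_B (V U : ℝ[X]) (u : ℝ) : cv (B U) (B V) u = (B (X * (U * V))).eval u := by
  induction V using Polynomial.induction_on generalizing U with
  | C a =>
    have h := ftc (B (X * (U * C a))) u
    rw [(B_X _).1, (B_X _).2.1, sub_zero] at h
    rw [← h, cv, ← mul_one (C a), B_C, B_one, mul_one, mul_comm U, B_C]
    refine intervalIntegral.integral_congr fun s _ => ?_
    simp [mul_comm]
  | add p q hp hq =>
    rw [mul_add, mul_add, map_add, map_add, eval_add, ← hp, ← hq, cv, cv, cv,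
      ← intervalIntegral.integral_add (cv_int _ _ _) (cv_int _ _ _)]
    refine intervalIntegral.integral_congr fun s _ => ?_
    simp [mul_add]
  | monomial n a ih =>
    have e : C a * X ^ (n + 1) = X * (C a * X ^ n) := by ring
    rw [e, cv_parts, ih]
    congr 2; ring

/-- Bessel polynomials. -/
noncomputable def Y (c : ℝ) : ℕ → ℝ[X]
  | 0 => 1
  | 1 => 1 + C c * X
  | l + 2 => (2 * (l : ℝ[X]) + 3) * C c * X * Y c (l + 1) + Y c l

theorem Y_two (c : ℝ) (l : ℕ) :
    Y c (l + 2) = (2 * (l : ℝ[X]) + 3) * C c * X * Y c (l + 1) + Y c l := rfl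

theorem Y_der (c : ℝ) (l : ℕ) :
    C c * X ^ 2 * derivative (Y c l) = (-((l : ℝ[X]) + 1) * C c * X - 1) * Y c l + Y c (l + 1) ∧
    C c * X ^ 2 * derivative (Y c (l + 1)) =
      (((l : ℝ[X]) + 1) * C c * X - 1) * Y c (l + 1) + Y c l := by
  induction l with
  | zero =>
    simp only [Y, derivative_one, derivative_add, derivative_mul, derivative_C, derivative_X]
    push_cast
    constructor <;> ring
  | succ l ih =>
    obtain ⟨h1, h2⟩ := ih
    constructor
    · rw [h2, Y_two]; push_cast; ring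
    · rw [Y_two]
      simp only [derivative_add, derivative_mul, derivative_C, derivative_X, derivative_natCast,
        derivative_ofNat]
      push_cast
      linear_combination ((2 * (l : ℝ[X]) + 3) * C c * X) * h2 + h1

/-- the argument. -/
noncomputable def Z (a b : ℝ) : ℝ[X] := 1 - C (a - b) * X - C (a * b / 2) * X ^ 2

theorem prod (a b : ℝ) (l : ℕ) : (Leg l).comp (Z a b) = B (Y b l * Y (-a) l) := by
  induction l using Nat.twoStepInduction with
  | zero => simp [Leg_zero, Y, B_one]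
  | one =>
    have e : Y b 1 * Y (-a) 1 = monomial 0 1 + monomial 1 (b - a) + monomial 2 (-(a * b)) := by
      simp only [Y, ← C_mul_X_pow_eq_monomial, map_neg, map_sub, map_mul, map_one]; ring
    rw [e, map_add, map_add, B_mon, B_mon, B_mon, Leg_succ, Leg_zero, Dl_zero]
    simp only [← C_mul_X_pow_eq_monomial, Z, neg_div, map_neg]
    simp
    ring
  | more l h0 h1 =>
    set U := Y b (l + 1) * Y (-a) (l + 1) with hU
    have e : Y b (l + 2) * Y (-a) (l + 2) = Y b l * Y (-a) l + X * (C (2 * (l : ℝ) + 3) *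
        (C (-(a * b)) * (X * derivative (X * U)) + C (b - a) * U)) := by
      have hb := (Y_der b l).2
      have ha := (Y_der (-a) l).2
      rw [Y_two, Y_two, hU]
      simp only [derivative_mul, derivative_X, map_neg, map_sub, map_mul, map_add, map_natCast,
        map_ofNat] at ha ⊢
      linear_combination ((2 * (l : ℝ[X]) + 3) * X * C a * Y (-a) (l + 1)) * hb -
        ((2 * (l : ℝ[X]) + 3) * X * C b * Y b (l + 1)) * ha
    rw [e, map_add, ← h0, ← sub_eq_zero]
    set W := (Leg (l + 2)).comp (Z a b) - ((Leg l).comp (Z a b) + B (X * (C (2 * (l : ℝ) + 3) *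
        (C (-(a * b)) * (X * derivative (X * U)) + C (b - a) * U)))) with hW
    have hd : derivative W = 0 := by
      have h2 := congrArg (fun p => p.comp (Z a b)) (Dl_two l)
      simp only [sub_comp, mul_comp, add_comp, natCast_comp, ofNat_comp, Nat.cast_ofNat] at h2
      have h3 : derivative (Z a b) = C (b - a) - C (a * b) * X := by
        have h4 : (C (a * b) : ℝ[X]) = C (a * b / 2) * 2 := by
          rw [← map_ofNat C 2, ← C_mul]; congr 1; ring
        rw [h4]
        simp only [Z, derivative_mul, derivative_C, derivative_X, derivative_one,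
          derivative_X_pow, map_sub, Nat.cast_ofNat, map_ofNat]
        ring
      rw [hW, derivative_sub, derivative_add, (B_X _).1, B_C, map_add B, B_C, B_C,
        (B_X U).2.2, ← h1, derivative_comp, derivative_comp, (ode _).1, (ode _).1, h3]
      simp only [map_neg, map_add, map_mul, map_natCast, map_ofNat]
      linear_combination (C (b - a) - C a * C b * X) * h2
    have hv : W.eval 0 = 0 := by
      rw [hW, eval_sub, eval_add, (B_X _).2.1, eval_comp, eval_comp]
      simp [Z, Leg_one]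
    rw [eq_C_of_derivative_eq_zero hd, coeff_zero_eq_eval_zero, hv, C_0]

/-- the profile. -/
noncomputable def Ga (l : ℕ) : ℝ[X] := (Leg l).comp (C (5 / 4) - X ^ 2)

theorem Ga_eval (l : ℕ) (v : ℝ) : (Ga l).eval v = (Leg l).eval (5 / 4 - v ^ 2) := by
  simp [Ga, eval_comp]

theorem Ga_even (l : ℕ) (v : ℝ) : (Ga l).eval (-v) = (Ga l).eval v := by
  rw [Ga_eval, Ga_eval, neg_sq]

theorem Ga_deg (l : ℕ) : (Ga l).natDegree ≤ 2 * l := by
  refine natDegree_comp_le.trans ?_
  have h : (C (5 / 4) - X ^ 2 : ℝ[X]).natDegree ≤ 2 := by compute_degree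
  calc _ ≤ l * 2 := Nat.mul_le_mul (deg l).1 h
    _ = _ := by ring

theorem Ga_pos (l : ℕ) {v : ℝ} (hv : |v| ≤ 1 / 2) : 0 ≤ (Ga l).eval v := by
  have h1 : v ^ 2 ≤ 1 / 4 := by nlinarith [sq_abs v, abs_nonneg v]
  have h := Leg_ge l (z := 5 / 4 - v ^ 2) (w := 0) (by linarith) le_rfl (by nlinarith)
  rw [Ga_eval]
  have h2 : (0 : ℝ) < (5 / 4 - v ^ 2 + 0) ^ l := pow_pos (by linarith) l
  exact ((mul_pos_iff_of_pos_left (by positivity)).1 (h2.trans_le h)).le

theorem Ga_ge (l : ℕ) {v : ℝ} (hv : |v| ≤ 1 / (2 * (l + 1))) :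
    2 ^ l / (4 * ((l : ℝ) + 1)) ≤ (Ga l).eval v := by
  have h0 : (0 : ℝ) < l + 1 := by positivity
  have hl : (0 : ℝ) ≤ l := by positivity
  have h1 : v ^ 2 * (4 * (l + 1) ^ 2) ≤ 1 := by
    rw [le_div_iff₀ (by positivity)] at hv
    nlinarith [sq_abs v, abs_nonneg v, mul_nonneg (abs_nonneg v) h0.le]
  have hs := sq_nonneg v
  rcases Nat.eq_zero_or_pos l with rfl | hp
  · rw [Ga_eval, Leg_zero]; norm_num
  have hl1 : (1 : ℝ) ≤ l := by exact_mod_cast hp
  have h2 : v ^ 2 ≤ 1 / 16 := by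
    have h6 : (16 : ℝ) ≤ 4 * (l + 1) ^ 2 := by nlinarith
    nlinarith [mul_le_mul_of_nonneg_left h6 hs]
  have h := Leg_ge l (z := 5 / 4 - v ^ 2) (w := 3 / 4 - 2 * v ^ 2) (by linarith) (by linarith)
    (by nlinarith)
  have h3 : 1 + (l : ℝ) * (-(3 / 2 * v ^ 2)) ≤ (1 + -(3 / 2 * v ^ 2)) ^ l :=
    one_add_mul_le_pow (by linarith) l
  have h4 : (l : ℝ) * v ^ 2 ≤ 1 / 4 := by nlinarith
  have e : 5 / 4 - v ^ 2 + (3 / 4 - 2 * v ^ 2) = 2 * (1 + -(3 / 2 * v ^ 2)) := by ring
  rw [e, mul_pow] at h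
  have h5 : (0 : ℝ) < 2 ^ l := by positivity
  rw [Ga_eval, div_le_iff₀ (by positivity)]
  nlinarith

theorem edge_eq (l : ℕ) (u : ℝ) :
    ∫ s in (0 : ℝ)..u, (Ga l).eval (1 / 2 + s) * (Ga l).eval (1 / 2 - (u - s)) =
      ∫ s in (0 : ℝ)..u, (Leg l).eval (1 - s ^ 2 / 2) * (Leg l).eval (1 - 2 * (u - s) ^ 2) := by
  have h1 := cv_B (Y 2 l * Y (-1) l) (Y 1 l * Y (-2) l) u
  have h2 := cv_B (Y 2 l * Y (-2) l) (Y 1 l * Y (-1) l) u
  have e : Y 1 l * Y (-2) l * (Y 2 l * Y (-1) l) = Y 1 l * Y (-1) l * (Y 2 l * Y (-2) l) := by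
    ring
  rw [e, ← h2, ← prod, ← prod, ← prod, ← prod, cv, cv] at h1
  refine Eq.trans ?_ (h1.trans ?_)
  · refine intervalIntegral.integral_congr fun s _ => ?_
    simp only [Ga_eval, eval_comp, Z, eval_sub, eval_mul, eval_C, eval_X, eval_pow, eval_one]
    congr 2 <;> ring
  · refine intervalIntegral.integral_congr fun s _ => ?_
    simp only [eval_comp, Z, eval_sub, eval_mul, eval_C, eval_X, eval_pow, eval_one]
    congr 2 <;> ring

theorem edge (l : ℕ) {u : ℝ} (hu : u ∈ Icc (0 : ℝ) 1) :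
    |∫ s in (0 : ℝ)..u, (Ga l).eval (1 / 2 + s) * (Ga l).eval (1 / 2 - (u - s))| ≤ 1 := by
  rw [edge_eq]
  have h := intervalIntegral.norm_integral_le_of_norm_le_const (a := 0) (b := u) (C := 1)
    (f := fun s => (Leg l).eval (1 - s ^ 2 / 2) * (Leg l).eval (1 - 2 * (u - s) ^ 2))
    fun s hs => by
      rw [uIoc_of_le hu.1] at hs
      have a1 : s ^ 2 ≤ 1 := by nlinarith [hs.1, hs.2, hu.2]
      have a2 : (u - s) ^ 2 ≤ 1 := by nlinarith [hs.1, hs.2, hu.2]
      rw [Real.norm_eq_abs, abs_mul]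
      exact mul_le_one₀ (abs_Leg l (by nlinarith [sq_nonneg s])) (abs_nonneg _)
        (abs_Leg l (by nlinarith [sq_nonneg (u - s)]))
  rw [Real.norm_eq_abs, sub_zero, abs_of_nonneg hu.1] at h
  linarith [hu.2]

end Pool.Agent.MP_66cee2_co.H12L
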