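import Mathlib

/-
From a colouring of a cube to a map that preserves unit distances.
-/

namespace Pool.Agent.MP_66cee2_co.H12S

open Set

/-- a colouring of space without monochromatic unit pairs gives a map. -/
theorem map_of_col {d n : ℕ} (hd : 1 ≤ d) (c : EuclideanSpace ℝ (Fin d) → Fin n)
    (hc : ∀ x y, ‖x - y‖ = 1 → c x ≠ c y) :
    ∃ f : EuclideanSpace ℝ (Fin d) → EuclideanSpace ℝ (Fin n),
      (∀ x y, ‖x - y‖ = 1 → ‖f x - f y‖ = 1) ∧ ∃ x y, ‖f x - f y‖ ≠ ‖x - y‖ := by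
  have h2 : (√(1 / 2) : ℝ) ^ 2 = 1 / 2 := Real.sq_sqrt (by norm_num)
  have key : ∀ i j : Fin n, i ≠ j → ‖(EuclideanSpace.single i √(1 / 2) -
      EuclideanSpace.single j √(1 / 2) : EuclideanSpace ℝ (Fin n))‖ = 1 := by
    intro i j hij
    rw [← pow_eq_one_iff_of_nonneg (norm_nonneg _) two_ne_zero, norm_sub_sq_real,
      EuclideanSpace.inner_single_left, PiLp.norm_single, PiLp.norm_single,
      Real.norm_eq_abs, sq_abs, h2]
    simp [hij]
    norm_num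
  refine ⟨fun x => EuclideanSpace.single (c x) √(1 / 2), fun x y h => key _ _ (hc x y h),
    EuclideanSpace.single ⟨0, hd⟩ 2, 0, ?_⟩
  rw [sub_zero, PiLp.norm_single]
  by_cases h : c (EuclideanSpace.single ⟨0, hd⟩ 2) = c 0
  · simp [h]
  · rw [key _ _ h]; norm_num

theorem exists_shift {d : ℕ} (x : EuclideanSpace ℝ (Fin d)) : ∃ j : Fin (d + 1), ∀ i,
    Int.fract ((x i - 2 * j) / (2 * d + 2)) * (2 * d + 2) < 2 * d := by
  by_contra h
  push Not at h
  choose g hg using h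
  have hP : (0 : ℝ) < 2 * d + 2 := by positivity
  obtain ⟨a, b, hab, e⟩ := Fintype.exists_ne_map_eq_of_card_lt g (by simp)
  wlog hlt : a < b generalizing a b
  · exact this b a hab.symm e.symm (lt_of_le_of_ne (not_lt.1 hlt) hab.symm)
  have h1 := hg a
  have h2 := hg b
  rw [← e] at h2
  set t := x (g a)
  have a1 := Int.fract_lt_one ((t - 2 * a) / (2 * d + 2))
  have a2 := Int.fract_lt_one ((t - 2 * b) / (2 * d + 2))
  have b1 := Int.floor_add_fract ((t - 2 * a) / (2 * d + 2))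
  have b2 := Int.floor_add_fract ((t - 2 * b) / (2 * d + 2))
  set p := ⌊(t - 2 * a) / (2 * d + 2)⌋
  set q := ⌊(t - 2 * b) / (2 * d + 2)⌋
  rw [eq_div_iff hP.ne'] at b1 b2
  have c1 : ((a : ℕ) : ℝ) + 1 ≤ (b : ℕ) := by exact_mod_cast hlt
  have c2 : ((b : ℕ) : ℝ) ≤ d := by exact_mod_cast Nat.lt_succ_iff.1 b.2
  have c3 : (0 : ℝ) ≤ (a : ℕ) := by positivity
  have a3 := mul_lt_mul_of_pos_right a1 hP
  have a4 := mul_lt_mul_of_pos_right a2 hP
  rcases le_or_gt p q with hpq | hpq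
  · have : (p : ℝ) ≤ q := by exact_mod_cast hpq
    nlinarith [mul_le_mul_of_nonneg_right this hP.le]
  · have : (q : ℝ) + 1 ≤ p := by exact_mod_cast hpq
    nlinarith [mul_le_mul_of_nonneg_right this hP.le]

/-- a colouring of the cube gives a colouring of space. -/
theorem col_of_cube {d : ℕ} {κ : Type} (c : EuclideanSpace ℝ (Fin d) → κ)
    (hc : ∀ x y : EuclideanSpace ℝ (Fin d), (∀ i, x i ∈ Ico (0 : ℝ) (2 * d)) →
      (∀ i, y i ∈ Ico (0 : ℝ) (2 * d)) → ‖x - y‖ = 1 → c x ≠ c y) :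
    ∃ c' : EuclideanSpace ℝ (Fin d) → Fin (d + 1) × κ, ∀ x y, ‖x - y‖ = 1 → c' x ≠ c' y := by
  have hP : (0 : ℝ) < 2 * d + 2 := by positivity
  choose j hj using exists_shift (d := d)
  set r : Fin (d + 1) → EuclideanSpace ℝ (Fin d) → EuclideanSpace ℝ (Fin d) := fun s x =>
    WithLp.toLp 2 fun i => Int.fract ((x i - 2 * s) / (2 * d + 2)) * (2 * d + 2) with hr
  refine ⟨fun x => (j x, c (r (j x) x)), fun x y h e => ?_⟩
  obtain ⟨e1, e2⟩ := Prod.mk.inj e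
  have hx := hj x
  have hy := hj y
  rw [← e1] at hy e2
  set s := j x
  have n0 : ∀ t : ℝ, 0 ≤ Int.fract t * (2 * d + 2) := fun t =>
    mul_nonneg (Int.fract_nonneg _) hP.le
  refine hc _ _ (fun i => ⟨n0 _, hx i⟩) (fun i => ⟨n0 _, hy i⟩) ?_ e2
  rw [← h]
  congr 1
  ext i
  have h1 : |x i - y i| ≤ 1 := by
    have := PiLp.norm_apply_le (x - y) i
    rwa [h, PiLp.sub_apply, Real.norm_eq_abs] at this
  obtain ⟨h2, h3⟩ := abs_le.1 h1
  have b1 := Int.floor_add_fract ((x i - 2 * s) / (2 * d + 2))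
  have b2 := Int.floor_add_fract ((y i - 2 * s) / (2 * d + 2))
  have a1 := n0 ((x i - 2 * s) / (2 * d + 2))
  have a2 := n0 ((y i - 2 * s) / (2 * d + 2))
  have a3 := hx i
  have a4 := hy i
  set p := ⌊(x i - 2 * s) / (2 * d + 2)⌋
  set q := ⌊(y i - 2 * s) / (2 * d + 2)⌋
  rw [eq_div_iff hP.ne'] at b1 b2
  simp only [hr, PiLp.sub_apply]
  rcases lt_trichotomy p q with hpq | hpq | hpq
  · have : (p : ℝ) + 1 ≤ q := by exact_mod_cast hpq
    nlinarith [mul_le_mul_of_nonneg_right this hP.le]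
  · have : (p : ℝ) = q := by exact_mod_cast hpq
    rw [this] at b1
    linarith
  · have : (q : ℝ) + 1 ≤ p := by exact_mod_cast hpq
    nlinarith [mul_le_mul_of_nonneg_right this hP.le]

/-- a colouring of the cube gives a map. -/
theorem map_of_cube {d k n : ℕ} (hd : 1 ≤ d) (hn : (d + 1) * k ≤ n)
    (c : EuclideanSpace ℝ (Fin d) → Fin k)
    (hc : ∀ x y : EuclideanSpace ℝ (Fin d), (∀ i, x i ∈ Ico (0 : ℝ) (2 * d)) →
      (∀ i, y i ∈ Ico (0 : ℝ) (2 * d)) → ‖x - y‖ = 1 → c x ≠ c y) :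
    ∃ f : EuclideanSpace ℝ (Fin d) → EuclideanSpace ℝ (Fin n),
      (∀ x y, ‖x - y‖ = 1 → ‖f x - f y‖ = 1) ∧ ∃ x y, ‖f x - f y‖ ≠ ‖x - y‖ := by
  obtain ⟨c', h⟩ := col_of_cube c hc
  exact map_of_col hd (fun x => Fin.castLE hn (finProdFinEquiv (c' x))) fun x y e e' =>
    h x y e (finProdFinEquiv.injective (Fin.castLE_injective hn e'))

end Pool.Agent.MP_66cee2_co.H12S
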